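import Pool.Agent.Q29.TV.Main

/-!
# Independence of the degree of twisted commutativity of the finite generating set

The definitions (balls, `tdc φ X`, `IsVirtuallyAbelian`) are in `Pool.Agent.Q29.TV.Defs`.
-/

namespace Pool.Agent.Results.MP_d54b08_al.Independent

open Q29.TV

universe u

/-- For a finitely generated virtually abelian group `G` and an endomorphism `φ`, the degree of
twisted commutativity is the same for any two finite generating sets. -/
theorem result (G : Type u) [Group G] (hG : IsVirtuallyAbelian G) (φ : G →* G) (X Y : Set G)
    (hX : X.Finite) (hXgen : Subgroup.closure X = ⊤) (hY : Y.Finite)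
    (hYgen : Subgroup.closure Y = ⊤) : tdc φ X = tdc φ Y :=
  (main hG hX hXgen φ).trans (main hG hY hYgen φ).symm

end Pool.Agent.Results.MP_d54b08_al.Independent
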